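import Pool.Agent.Run7.h523.TW.Transfer

set_option autoImplicit false

/-!
# MP_b1773a: the Kakeya conjecture for towers of wave fronts

The line of slope `v ∈ ℝ^N` and position `a(v) ∈ ℝ^N` in `ℝ^(N+1)` consists of the points
`(t, a(v) + t v)`, `t ∈ ℝ` (height).  Split the `N` coordinates of the slopes into consecutive blocks:
the coordinate `i` belongs to the block number `b i`.  The family of lines is a **front tower** if

* it is triangular: the coordinates of `a(v)` in the block `m` depend only on the coordinates of `v`
  in the blocks `≤ m` (arbitrary measurable functions);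
* for every block `m` with at least two coordinates, and for fixed slopes in the previous blocks, the
  lines, projected to the block `m` and the height, form wave fronts: if `v` and `w` differ only from
  the block `m` on, and the block parts of `v - u`, `w - u` have the same length `r`, then nearby
  points of the two projected lines satisfy `r |s - s'| ≤ |x - x'|`, where `s, s'` are the heights of
  the points and `x, x'` their positions after subtraction of the motion `t u`; here `u` (the axis)
  is an arbitrary function of the slopes in the previous blocks.  In other words, no point of one line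
  is inside the double cone with axis `(1, u)` at a nearby point of the other one.

Blocks with one coordinate are arbitrary, and nothing is assumed about slopes of different lengths
`r` in a block, or about different slopes in the previous blocks.  The condition of a block is
required for a set `D m` of slopes and for heights in intervals `[α m v, β m v]` only.

If all blocks have size one, these are triangular (reducible) families; with one block they are the
wave fronts of `WaveFronts`; new are, for instance, in `ℝ^4`, the families for which the lines with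
first slope `v₁` lie in the hyperplane `x₁ = a₁(v₁) + t v₁`, and form there unions of wave fronts
with an axis depending arbitrarily on `v₁` (say all lines with the angle `φ` to the axis pass through
one point, which depends arbitrarily on `v₁` and `φ`), or for which the first two coordinates of the
lines form wave fronts and the third one is arbitrary.

We prove, in every dimension: a set which meets the lines in positive length, for a set of slopes of
positive measure, has Hausdorff dimension `N + 1`, and its `δ`-neighbourhoods have measure at least
`c (1 + log (1/δ))^(-2 N 3^N)`.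

Proof: the `L^p` maximal estimate for front families (`FrontMaximal`), in fixed codimension, and an
extension principle: if a base family, and uniformly all fibre families, satisfy a power estimate for
the averages of functions `0 ≤ f ≤ 1` over `δ`-tubes, then so does the triangular family.
-/

open MeasureTheory Set Metric
open scoped ENNReal

namespace Pool.Agent.Results.MP_b1773a_an.FrontTowers

/-- The Euclidean length of the part of `x` in the block number `m`. -/
noncomputable def len {N : ℕ} (b : Fin N → ℕ) (m : ℕ) (x : Fin N → ℝ) : ℝ :=
  √(∑ i, if b i = m then x i ^ 2 else 0)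

/-- The point of height `t` on the line with position `a` and slope `v`. -/
noncomputable def pt {N : ℕ} (a v : Fin N → ℝ) (t : ℝ) : EuclideanSpace ℝ (Fin (N + 1)) :=
  WithLp.toLp 2 (Fin.cons t (a + t • v))

/-- **Front towers** with blocks `b`, domains `D m`, heights between `α m v` and `β m v`, axes
`u m v` and positions `a v`. -/
structure FrontTower {N : ℕ} (b : Fin N → ℕ) (D : ℕ → Set (Fin N → ℝ))
    (α β : ℕ → (Fin N → ℝ) → ℝ) (u : ℕ → (Fin N → ℝ) → (Fin N → ℝ))
    (a : (Fin N → ℝ) → (Fin N → ℝ)) : Prop where
  measurable_a : Measurable a
  measurable_D : ∀ m, MeasurableSet (D m)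
  measurable_α : ∀ m, Measurable (α m)
  measurable_β : ∀ m, Measurable (β m)
  measurable_u : ∀ m, Measurable (u m)
  /-- the data of the block `m` depend only on the slopes in the blocks `≤ m` -/
  triangular : ∀ m v w, (∀ j, b j ≤ m → v j = w j) →
    (v ∈ D m → w ∈ D m) ∧ α m v = α m w ∧ β m v = β m w ∧ ∀ i, b i = m → a v i = a w i
  /-- the axis of the block `m` depends only on the slopes in the blocks `< m` -/
  axis : ∀ m v w, (∀ j, b j < m → v j = w j) → ∀ i, b i = m → u m v i = u m w i
  /-- the front condition, for blocks with at least two coordinates -/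
  front : ∀ m, 2 ≤ Fintype.card {i // b i = m} → ∀ L : ℝ, ∃ ρ > 0, ∀ v ∈ D m, ∀ w ∈ D m,
    ‖v‖ ≤ L → ‖w‖ ≤ L → (∀ j, b j < m → v j = w j) →
    len b m (v - u m v) = len b m (w - u m w) → len b m (v - w) ≤ ρ →
    ∀ s ∈ Icc (α m v) (β m v), ∀ s' ∈ Icc (α m w) (β m w), |s| ≤ L → |s'| ≤ L → |s - s'| ≤ ρ →
    len b m ((a v + s • (v - u m v)) - (a w + s' • (w - u m w))) ≤ ρ →
    len b m (v - u m v) * |s - s'| ≤
      len b m ((a v + s • (v - u m v)) - (a w + s' • (w - u m w)))

/-- **The Kakeya conjecture for front towers.** -/
theorem result (N : ℕ) (b : Fin N → ℕ) (D : ℕ → Set (Fin N → ℝ)) (α β : ℕ → (Fin N → ℝ) → ℝ)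
    (u : ℕ → (Fin N → ℝ) → (Fin N → ℝ)) (a : (Fin N → ℝ) → (Fin N → ℝ))
    (hF : FrontTower b D α β u a) (S : Set (Fin N → ℝ)) (K : Set (EuclideanSpace ℝ (Fin (N + 1))))
    (hS : volume S ≠ 0) (hSD : ∀ v ∈ S, ∀ i, v ∈ D (b i))
    (hK : ∀ v ∈ S, volume {t : ℝ | (∀ i, t ∈ Icc (α (b i) v) (β (b i) v)) ∧
      pt (a v) v t ∈ K} ≠ 0) :
    dimH K = (N + 1 : ℕ) ∧
    ∃ c : ℝ, 0 < c ∧ ∀ δ : ℝ, 0 < δ → δ ≤ 1 →
      ENNReal.ofReal (c / (1 + Real.log (1 / δ)) ^ (2 * N * 3 ^ N)) ≤ volume (thickening δ K) := by
  have T : Run7.h523.TW.Tow b D α β u a :=
    ⟨hF.measurable_a, hF.measurable_D, hF.measurable_α, hF.measurable_β, hF.measurable_u,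
      hF.triangular, hF.axis, hF.front⟩
  obtain ⟨h1, c, hc, h2⟩ := Run7.h523.TW.main T (S := S) (K := Run7.h523.TW.Psi ⁻¹' K) hS hSD hK
  rw [Fintype.card_fin] at h1 h2
  exact ⟨Run7.h523.TW.transfer_dim h1, Run7.h523.TW.transfer_nbhd hc h2⟩

end Pool.Agent.Results.MP_b1773a_an.FrontTowers
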