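import Pool.Agent.Run7.h750.LC18

set_option autoImplicit false

/-!
# MP_b1773a: Kakeya sets in `ℝ^4` organised by a line congruence, families of subspaces, towers

A *family* of `k`-dimensional linear subspaces `P ω = range (L ω)` of `ℝ^n` (`Family k n`) has a
measurable parametrisation by a finite measure space. It is *`β`-spread* (`Family.Spread`) if, on
average over `ω`, the unit ball of `P ω` has volume at most `C r^β` in the `r`-neighbourhood of
`P ω'`, for all `ω'` and `r > 0`. The subspaces may intersect each other in lines, planes, ...

1. If `K ⊆ ℝ^n` meets a translate `x ω + P ω` of the subspace number `ω` in a set of dimension at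
   least `s`, for a non null set of `ω`, then `dim K ≥ 2 s - k + β`. Here `x` is an arbitrary
   function, `K` is an arbitrary set and `S` is an arbitrary non null set: nothing is assumed to be
   measurable but the linear parts `L ω`. (For `n ≤ 2 k` the exponent `β = n - k` is the best
   possible one, and with it the dimension `k` in the subspaces gives the dimension `n` of `K`.)
2. It follows that towers (`Tower n K`: `K` contains, in a translate of the subspace number `ω`, a
   tower of dimension `k`, for a non null set of members `ω` of a family which is `β`-spread for all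
   `β < n - k`; at the bottom are the sets of positive outer measure on the line) have dimension
   `n`. Kakeya sets in the plane are towers.
3. A differentiable `m`-parameter family of `k`-dimensional subspaces of `ℝ^(m + k)` is elliptic if
   the derivative `T v` in every direction `v ≠ 0` satisfies `T v (ℝ^k) + P ω = ℝ^n`. Elliptic
   families give towers.
4. **Kakeya sets in `ℝ^4`.** For a differentiable two parameter family of planes `P ω` of `ℝ^4`, that
   is, a congruence of lines of the projective space of dimension three, `v ↦ det (T v, L ω)` is a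
   quadratic form on `ℝ^2` (the focal form); the congruence is non parabolic if this form is non
   degenerate: definite (the elliptic case: nearby planes meet in `0` only; complex lines) or
   indefinite (the hyperbolic case: the lines of the projective space which meet two given curves,
   the secants of a curve, the common tangents of two surfaces; every plane meets two one parameter
   families of nearby planes of the congruence in lines of `ℝ^4`).
   Let `K` contain, for a non null set of `ω`, in a translate `x ω + P ω`, pieces of positive length
   of lines of a non null set of directions. Then `dim_H K = 4`.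

So the Kakeya conjecture holds in `ℝ^4` for sets of lines whose lines with directions in `P ω` lie
in one translate of `P ω`, or in countably many (then one of them has a non null set of directions),
for `ω` in a non null set: the translates are arbitrary, the position of the lines in the translate
is arbitrary.
-/

open MeasureTheory Set Metric ENNReal NNReal Run7.h750.LC

namespace Pool.Agent.Results.MP_b1773a_an.LineCongruences

/-- continuous linear maps from `ℝ^k` to `ℝ^n` -/
abbrev Lin (k n : ℕ) : Type := E k →L[ℝ] E n

/-- the possible derivatives of an `m`-parameter family of such maps -/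
abbrev Der (m k n : ℕ) : Type := E m →L[ℝ] Lin k n

/-- the value of a linear map -/
noncomputable def app {k n : ℕ} (Z : Lin k n) (u : E k) : E n := Z u

/-- the derivative in the direction `v` -/
noncomputable def dir {m k n : ℕ} (T : Der m k n) (v : E m) : Lin k n := T v

/-- `T` is the strict derivative of `L` at `ω`. -/
def StrictDeriv {m k n : ℕ} (L : E m → Lin k n) (T : Der m k n) (ω : E m) : Prop :=
  HasStrictFDerivAt L T ω

/-- `Z` is injective. -/
def Inj {k n : ℕ} (Z : Lin k n) : Prop := Function.Injective (app Z)

/-- the column number `i` of the matrix of `Z` -/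
noncomputable def col {k n : ℕ} (Z : Lin k n) (i : Fin k) (j : Fin n) : ℝ :=
  app Z (EuclideanSpace.single i 1) j

/-- The focal form of a family of planes `range (L ω)` of `ℝ^4` with derivative `T` and `Z = L ω`:
the determinant of the columns of `T v` and of `Z`, a quadratic form in `v`. -/
noncomputable def focalForm (T : Der 2 2 4) (Z : Lin 2 4) (v : E 2) : ℝ :=
  Matrix.det ![col (dir T v) 0, col (dir T v) 1, col Z 0, col Z 1]

/-- `L` parametrises near `ω` a congruence of planes of `ℝ^4` which is non parabolic at `ω`: `L` is
strictly differentiable at `ω`, `L ω` is injective and the focal form is non degenerate. -/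
def NonParabolicAt (L : E 2 → Lin 2 4) (ω : E 2) : Prop :=
  ∃ T : Der 2 2 4, StrictDeriv L T ω ∧ Inj (L ω) ∧
    ∀ v, v ≠ 0 → ∃ w, focalForm T (L ω) (v + w) ≠ focalForm T (L ω) v + focalForm T (L ω) w

/-- `L` parametrises near `ω` a family of `k`-dimensional subspaces of `ℝ^n` which is elliptic at
`ω`: `L` is strictly differentiable at `ω` and the sum of `range (L ω)` and of the range of the
derivative in any direction `v ≠ 0` is `ℝ^n`. -/
def EllipticAt {k m n : ℕ} (L : E m → Lin k n) (ω : E m) : Prop :=
  ∃ T : Der m k n, StrictDeriv L T ω ∧ Inj (L ω) ∧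
    ∀ v, v ≠ 0 → ∀ y : E n, ∃ u w : E k, app (dir T v) u + app (L ω) w = y

/-- The plane set `A` meets lines of a non null set of slopes in sets of positive length. -/
def ManyLines (A : Set (E 2)) : Prop :=
  ∃ Θ : Set ℝ, volume Θ ≠ 0 ∧ ∀ σ ∈ Θ, ∃ p : ℝ, volume {t : ℝ | !₂[t, p + σ * t] ∈ A} ≠ 0

/-- The part of `K` in the translate by `y` of the range of `Z`, in the coordinates given by `Z`. -/
def part {k n : ℕ} (Z : E k → E n) (y : E n) (K : Set (E n)) : Set (E k) := {u | y + Z u ∈ K}

/-- The members of the family with index in the non null set `S` have translates which meet `K` in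
sets of dimension at least `s`. -/
def Meets {k n : ℕ} (𝓕 : Family k n) (s : ℝ≥0) (S : Set 𝓕.Ω) (x : 𝓕.Ω → E n) (K : Set (E n)) :
    Prop :=
  𝓕.μ S ≠ 0 ∧ ∀ ω ∈ S, (s : ℝ≥0∞) ≤ dimH (part (𝓕.L ω) (x ω) K)

/-- For `ω` in the non null set `S`, the part of `K` in a translate of the range of `L ω` has the
property `Q`. -/
def Carries {k m n : ℕ} (Q : Set (E k) → Prop) (L : E m → Lin k n) (S : Set (E m))
    (x : E m → E n) (K : Set (E n)) : Prop :=
  vol S ≠ 0 ∧ ∀ ω ∈ S, Q (part (app (L ω)) (x ω) K)

/-- **Kakeya sets in `ℝ^4` organised by a congruence of planes; towers of families of subspaces.** -/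
theorem result :
    (∀ (L : E 2 → Lin 2 4) (S : Set (E 2)) (x : E 2 → E 4) (K : Set (E 4)),
      (∀ ω ∈ S, NonParabolicAt L ω) → Carries ManyLines L S x K → dimH K = 4) ∧
    (∀ (k n : ℕ) (𝓕 : Family k n) (β : ℝ), 0 ≤ β → 𝓕.Spread β →
      ∀ (s : ℝ≥0) (S : Set 𝓕.Ω) (x : 𝓕.Ω → E n) (K : Set (E n)), Meets 𝓕 s S x K →
      2 * (s : ℝ≥0∞) + ENNReal.ofReal β ≤ dimH K + k) ∧
    (∀ (n : ℕ) (K : Set (E n)), Tower n K → dimH K = n) ∧
    (∀ (k m n : ℕ), 0 < m → n = m + k → ∀ (L : E m → Lin k n) (S : Set (E m)) (x : E m → E n)
      (K : Set (E n)), (∀ ω ∈ S, EllipticAt L ω) → Carries (Tower k) L S x K → Tower n K) := by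
  refine ⟨fun L S x K hL h => ?_, fun k n 𝓕 β hβ hsp s S x K h =>
    𝓕.furst hβ hsp x K h.1 h.2, fun n K h => h.dim, fun k m n hm hn L S x K hL h => ?_⟩
  · exact kakeya_congruence h.1 hL K x h.2
  · refine tower_elliptic_global hm hn h.1 (fun ω hω => ?_) x K h.2
    obtain ⟨T, h1, h2, h3⟩ := hL ω hω
    refine ⟨T, h1, h2, fun v hv => ?_⟩
    rw [eq_top_iff]
    intro y _
    obtain ⟨u, w, h4⟩ := h3 v hv y
    rw [← h4]
    exact Submodule.add_mem_sup ⟨u, rfl⟩ ⟨w, rfl⟩

end Pool.Agent.Results.MP_b1773a_an.LineCongruences
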