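import Pool.Agent.Run7.h693.TP.Cor

set_option autoImplicit false

/-!
# MP_b1773a: the Kakeya conjecture for families of lines in towers of transversal pencils

A family of lines in `ℝ^N × ℝ`, at most one line in every direction, is *carried by a tower of
transversal pencils* (`Tower κ N D a`, recursive definition in `Pool.Agent.Run7.h693.TP.Defs`; `D` is
the set of slopes, `a v` the position of the line of slope `v`) if `a` is measurable and, unless
`N = 0`, there is an `m`-parameter Lipschitz family of linear subspaces `V b` of codimension `m`,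
any two of them (quantitatively) transversal, which cover the directions of the lines, such that
for every `b` the lines with directions in `V b` are contained in at most `M ≤ κ` translates of
`V b`, and form families carried by towers of transversal pencils in each of these translates.
The translates are arbitrary, no regularity in `b` is assumed.  Every measurable family of lines
in the plane is carried by a tower (`m = 1`, `V b` a line).  With `m = 1` at each step these are the
reducible families; new are the pencils of subspaces of higher codimension: complex lines in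
`ℂ² = ℝ^4`, quaternionic lines in `ℍ² = ℝ^8`, complex hyperplanes in `ℂ^d = ℝ^(2d)` with a common
subspace, and non-linear deformations of these.

We prove, in every dimension `N + 1`:

* every set `K` that meets the line number `v` in a set of positive length, for a set of slopes `v`
  of positive measure, has Hausdorff dimension `N + 1`;
* if these lengths are at least `lam` and the measure of the set of slopes is at least `σ`, then
  the `δ`-neighbourhood of `K` has measure at least `c (lam σ / (1 + log (1/δ)))^p`;
* in particular, let `J` be a complex structure on `ℝ^4` (a linear map with `J² = -1`) and let `K`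
  contain a unit segment `{a ω + s ω : 0 ≤ s ≤ 1}` for every unit vector `ω`, where `a` is Borel
  measurable, and for every `ω` the segments with directions in the complex line `span {ω, J ω}`
  are contained in at most `M` translates of this complex line (`ComplexKakeya J M a K`).  Then
  `dimH K = 4`, and the `δ`-neighbourhoods of `K` have measure at least `c / (1 + log (1/δ))^p`
  where `c` and `p` depend on `J`, `M` and the size of `K` only.
-/

open MeasureTheory Set Metric ENNReal NNReal Run7.h693.TP

namespace Pool.Agent.Results.MP_b1773a_an.TransversalPencils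

/-- `a` is a measurable family of lines in `ℝ^N × ℝ` with a measurable set `D` of slopes, carried by a
tower of transversal pencils. -/
structure Family (κ : ℝ) {N : ℕ} (D : Set (P N)) (a : P N → P N) : Prop where
  one_le : 1 ≤ κ
  meas_D : MeasurableSet D
  meas_a : Measurable a
  tower : Tower κ N D a

/-- Lebesgue (outer) measure on the set of slopes -/
noncomputable def mes {N : ℕ} (S : Set (P N)) : ℝ≥0∞ := volume S

/-- the measure of the set of heights of the points of `K` on the line number `v` -/
noncomputable def len {N : ℕ} (a : P N → P N) (K : Set (E (N + 1))) (v : P N) : ℝ≥0∞ :=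
  volume {t : ℝ | pt (a v) v t ∈ K}

/-- the measure of the `δ`-neighbourhood of `K` -/
noncomputable def nbhd {n : ℕ} (K : Set (E n)) (δ : ℝ) : ℝ≥0∞ := volume (thickening δ K)

/-- `K` is contained in the closed ball with centre `0` and radius `R`. -/
def Inside {n : ℕ} (K : Set (E n)) (R : ℝ) : Prop := K ⊆ closedBall 0 R

/-- `J` is a complex structure on `ℝ^4`. -/
def IsCplx (J : E 4 →ₗ[ℝ] E 4) : Prop := ∀ x, J (J x) = -x

/-- **Kakeya conjecture for families of lines carried by towers of transversal pencils**, and for
Kakeya sets in `ℝ^4` adapted to a complex structure. -/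
theorem result :
    (∀ (N : ℕ) (κ : ℝ) (D : Set (P N)) (a : P N → P N), Family κ D a →
      ∀ (S : Set (P N)) (K : Set (E (N + 1))), S ⊆ D → mes S ≠ 0 → (∀ v ∈ S, len a K v ≠ 0) →
      dimH K = (N + 1 : ℕ)) ∧
    (∀ (N : ℕ) (κ R : ℝ), 1 ≤ κ → 1 ≤ R → ∃ (c : ℝ) (p : ℕ), 0 < c ∧
      ∀ (D : Set (P N)) (a : P N → P N), Family κ D a →
      ∀ (S : Set (P N)) (K : Set (E (N + 1))) (lam σ δ : ℝ), S ⊆ D → S ⊆ closedBall 0 R →
      Inside K R → 0 ≤ lam → 0 ≤ σ → (∀ v ∈ S, ENNReal.ofReal lam ≤ len a K v) →
      ENNReal.ofReal σ ≤ mes S → 0 < δ → δ ≤ 1 →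
      ENNReal.ofReal (c * (lam * σ / (1 + Real.log (1 / δ))) ^ p) ≤ nbhd K δ) ∧
    (∀ J : E 4 →ₗ[ℝ] E 4, IsCplx J → ∀ M : ℕ,
      (∀ (a : E 4 → E 4) (K : Set (E 4)), ComplexKakeya J M a K → dimH K = 4) ∧
      ∀ R : ℝ, ∃ (c : ℝ) (p : ℕ), 0 < c ∧
        ∀ (a : E 4 → E 4) (K : Set (E 4)), ComplexKakeya J M a K → Inside K R →
        ∀ δ : ℝ, 0 < δ → δ ≤ 1 →
        ENNReal.ofReal (c / (1 + Real.log (1 / δ)) ^ p) ≤ nbhd K δ) := by
  refine ⟨fun _ _ _ _ h _ _ hSD hS0 hK => dim_kak h.1 h.2 h.3 h.4 hSD hS0 hK, ?_,
    fun _ hJ M => ⟨fun _ _ h => ck_dim hJ h, fun R => ck_mink hJ M R⟩⟩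
  intro N κ R hκ hR
  obtain ⟨c, p, hc, h⟩ := mink_kak hκ hR N
  exact ⟨c, p, hc, fun D a hF => h D a hF.2 hF.3 hF.4⟩

end Pool.Agent.Results.MP_b1773a_an.TransversalPencils
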