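import Pool.Agent.Run7.h523.WF.Final

set_option autoImplicit false

/-!
# MP_b1773a: Kakeya sets made of wave fronts

Fix a unit vector `u` of `ℝ^n` (an axis).  A family of segments, one segment
`{x(e) + s e : α(e) ≤ s ≤ β(e)}` for each direction `e` in a set `S` of directions, is called a
*front family* if any two segments whose directions make the same angle with `u` are, near each
other, not separated by a vector which makes a smaller angle with `u`: no point of one of them lies
inside the double cone with axis `u` whose vertex is a nearby point of the other one and whose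
boundary contains the directions of the segments.  In other words: for each angle the segments with
this angle to the axis are pieces of characteristic lines of a wave front (an achronal set for the
cone field with this opening).  Nothing is assumed about segments with different angles, nor any
regularity or measurability of `x`, `α`, `β`.

Examples: the segments with the same angle all pass through one point, which may be an arbitrary
function of the angle (the set is then a union of pieces of circular cones with parallel axes and all
openings, at arbitrary places); or they are pieces of normals, on the outer side, of arbitrary convex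
bodies in horizontal hyperplanes, one for each angle.  For `n = 2` the condition is void.

We prove that a set which meets the segments of a front family in positive length, `S` of positive
surface measure, has Hausdorff dimension `n`; and if it contains the segments then its
`δ`-neighbourhood has measure at least `c / log (1/δ)`.

Proof: in slope coordinates the segments of one angle have slopes of equal norm `r`; they separate
like `t |v - v'|`, so that the fronts are large, and a segment of slope `r < r'` stays `δ`-close to the
front of speed `r'` for a time at most `4 δ / (r' - r)`.  Then the `L²` argument of Córdoba, with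
fronts in place of tubes.
-/

open MeasureTheory Set Metric
open scoped ENNReal

namespace Pool.Agent.Results.MP_b1773a_an.WaveFronts

/-- Euclidean space `ℝ^n`. -/
abbrev E (n : ℕ) : Type := EuclideanSpace ℝ (Fin n)

/-- Surface measure of a set of directions. -/
noncomputable def surf {n : ℕ} (S : Set (sphere (0 : E n) 1)) : ℝ≥0∞ :=
  (volume : Measure (E n)).toSphere S

/-- The segment `{x(e) + s e : α(e) ≤ s ≤ β(e)}`. -/
def seg {n : ℕ} (x : E n → E n) (α β : E n → ℝ) (e : E n) : Set (E n) :=
  (fun s : ℝ => x e + s • e) '' Icc (α e) (β e)

/-- `q` is not inside the double cone with vertex `p` and axis `u` whose boundary contains the line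
`p + ℝ e`: the vector `p - q` makes with the line `ℝ u` an angle at least as large as `e` does. -/
def Outside {n : ℕ} (u e p q : E n) : Prop :=
  |(inner ℝ u (p - q) : ℝ)| ≤ |(inner ℝ u e : ℝ)| * ‖p - q‖

/-- **Front families with axis `u`**: nondegenerate segments, one for each direction in `S`, such
that nearby points of two segments with nearby directions of equal angle with `u` are outside the
double cones of each other. -/
structure FrontFamily {n : ℕ} (u : E n) (S : Set (sphere (0 : E n) 1)) (x : E n → E n)
    (α β : E n → ℝ) : Prop where
  axis : ‖u‖ = 1
  lt : ∀ e ∈ S, α e < β e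
  front : ∀ e ∈ S, ∃ ρ > 0, ∀ e' ∈ S, (inner ℝ u (e : E n) : ℝ) = inner ℝ u (e' : E n) →
    ‖(e : E n) - e'‖ < ρ → ∀ p ∈ seg x α β e, ∀ q ∈ seg x α β e', ‖p - q‖ < ρ → Outside u e p q

/-- **Kakeya sets made of wave fronts have full dimension.** -/
theorem result (n : ℕ) (hn : 2 ≤ n) (u : E n) (S : Set (sphere (0 : E n) 1))
    (hSm : MeasurableSet S) (hS : 0 < surf S) (x : E n → E n) (α β : E n → ℝ)
    (hF : FrontFamily u S x α β) (K : Set (E n)) :
    ((∀ e ∈ S, 0 < volume {s : ℝ | s ∈ Icc (α e) (β e) ∧ x e + s • (e : E n) ∈ K}) →
      dimH K = n) ∧
    ((∀ e ∈ S, seg x α β e ⊆ K) → ∃ c > 0, ∀ δ : ℝ, 0 < δ → δ ≤ 1 / 2 →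
      ENNReal.ofReal (c / Real.log (1 / δ)) ≤ volume (thickening δ K)) := by
  obtain ⟨d, rfl⟩ : ∃ d, n = d + 1 := ⟨n - 1, by omega⟩
  have hd : 1 ≤ d := by omega
  have hfront : ∀ e ∈ S, ∃ ρ > 0, Run7.h523.WF.Front u S x α β (e : E (d + 1)) ρ := by
    intro e he
    obtain ⟨ρ, hρ, h⟩ := hF.front e he
    refine ⟨ρ, hρ, ?_⟩
    intro e' he' h1 h2 s hs s' hs' h3
    exact h e' he' h1 h2 _ ⟨s, hs, rfl⟩ _ ⟨s', hs', rfl⟩ h3
  refine ⟨fun hK => ?_, fun hK => ?_⟩
  · exact Run7.h523.WF.dim_front hd hF.axis hSm hS x α β hfront K hK
  · exact Run7.h523.WF.nbhd_front hd hF.axis hSm hS x α β hF.lt hfront K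
      fun e he s hs => hK e he ⟨s, hs, rfl⟩

end Pool.Agent.Results.MP_b1773a_an.WaveFronts
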